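import Mathlib
import Pool.Agent.H16.Chap4

set_option autoImplicit false

namespace Pool.Agent.Results.MP_f45d88_nt.Order5

open Polynomial

theorem result (p : ℕ) [Fact p.Prime] (h7 : 7 ≤ p) (h : p % 4 = 3) :
    Matrix.det (Matrix.of fun j k : Fin ((p - 5) / 2) =>
      (X : ℤ[X]) + C (legendreSym p (((j : ℕ) : ℤ) - ((k : ℕ) : ℤ)))) =
      C ((((p - 2) / 3 : ℕ) : ℤ) ^ 2) * X := by
  have := Pool.Agent.H16.Chap.thmC (R := ℤ[X]) h (m := (p - 5) / 2) (by omega) X
  rw [map_pow, map_natCast]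
  exact this

end Pool.Agent.Results.MP_f45d88_nt.Order5
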